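import Mathlib
import Pool.Agent.H377.AD.Curve
import Pool.Agent.H377.AD.Sim

/-!
# Elliptic curves over number fields: commuting subgroups of the Galois group and poles

`M/K` is a Galois extension of number fields with group `G = Gal(M/K)` and `E` is an elliptic curve over
`K` with an integral equation `W` (`IsModel E W`), automorphic over `M`. Let `s₀` be a point with
`Re s₀ ≥ 1` and `k` the order of `L(E/M, s)` at `s₀`. For nonsolvable `G` it is not known that the
functions `L(E/F, s)` of the fields `F` between `K` and `M` are holomorphic at `s₀`. The theorem proves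
this, and much more, for all groups `G` which contain sufficiently many commuting subgroups, compared
with `k`. For instance: `G` is the wreath product of ANY finite group with a solvable group `Q`, and
`k < 2 |Q|` (`k < 3 |Q|` for the wreath product of a simple group with `Q`). The tool is an additivity theorem for class functions
(`Pool.Agent.H377.AD.additivity`): if `X_1, …, X_m` commute and a class function `θ` with
nonnegative multiplicities on the solvable subgroups is not constant on any of the commutator subgroups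
`X_i'`, then `θ(1) ≥ b_1 + … + b_m`, where `b_i ≥ 2` is the least degree of such functions on
`X_i` which are not constant on `X_i'`.

The L-functions are real ones (the definitions are in the library, in `Q92/RT/Def`, `Q92/RT/Ind`,
`Q7/RL/Ord`, `Q7/RL/Orders`):
* `LOrder E s₀ n`: the Euler product `L(E, s)` of the problem, computed from minimal models, has a
  meromorphic continuation to `ℂ`, of order `n` at `s₀`;
* `twistedL M W φ`: the function `L(E ⊗ φ, s)` for a class function `φ` of `G`, without the Euler factors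
  at the primes dividing `6` or the discriminant of `W` or ramified in `M`; `HasOrder g s₀ n`: `g` has a
  meromorphic continuation to `ℂ`, of order `n` at `s₀`;
* `induced H ψ`: the character of `G` induced by the linear character `ψ` of the subgroup `H`, so that
  `twistedL M W (induced H ψ)` is `L(E/M^H ⊗ ψ, s)`; `Irr G`: the irreducible characters;
* `Orders E W s₀ n r`: `n χ` is the order at `s₀` of `L(E ⊗ χ, s)`, `χ` irreducible, and `r F` is the
  order of `L(E/F, s)`, `K ⊆ F ⊆ M`; `⊤` is the field `M` and `⊥` the field `K`;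
* `Automorphic M W s₀` (the only assumption; known if `E` is modular over `M`, by Brauer induction and
  solvable descent): the `L(E ⊗ χ, s)`, `χ` irreducible, have a meromorphic continuation, and the
  `L(E/M^H ⊗ ψ, s)` with `H` SOLVABLE have one that is holomorphic at `s₀`.

`Rigid`, `Family`, `Layered` and `Wide` are defined in `Pool.Agent.H377.AD.Defs`; the parts of the
statement are the definitions `RigidGroups`, `NormalSubgroups`, `Families`, `WreathProducts` and `Towers`
below.
-/

set_option autoImplicit false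

open NumberField Pool.Agent.H541R3.ART Pool.Agent.W446.AS Pool.Agent.Q7.RL Pool.Agent.Q92.RT
  Pool.Agent.W353.NF Pool.Agent.H341R2.EC Pool.Agent.H377.AD
open scoped commutatorElement

namespace Pool.Agent.Results.MP_bf61d2_nt.CommutingFamilies

/-- (A) Every finite group is rigid below the degree `2`. A finite group `T` is rigid below the degree
`3` if its commutator subgroup is perfect and has no quotient with exactly one involution; this holds
for the nonabelian simple groups. The groups `A_N ≤ T ≤ S_N` are rigid below the degree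
`(2^j - 1) ⌊N / 2^j⌋`, `N ≥ 5`, `j ≥ 2` (for `N = 2^j` this is `N - 1`, the least degree of a nonlinear
character). `SL_2(q)`, `q` even, is rigid below the degree `q - 1` (again the least degree), and
`GL_{a+b}(2)` below the degree `(2^a - 1) (2^b - 1)`, `a` and `b` coprime. -/
def RigidGroups : Prop :=
  (∀ (T : Type) [Group T] [Finite T], Rigid 2 T) ∧
  (∀ (T : Type) [Group T] [Finite T], Group.IsPerfect (commutator T) →
    (∀ (Q : Type) [Group Q] (f : commutator T →* Q), Function.Surjective f →
      ¬ ∃! t : Q, t ≠ 1 ∧ t * t = 1) → Rigid 3 T) ∧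
  (∀ (T : Type) [Group T] [Finite T] [IsSimpleGroup T], (¬ ∀ x y : T, x * y = y * x) →
    Rigid 3 T) ∧
  (∀ N j : ℕ, 5 ≤ N → 2 ≤ j → ∀ T : Subgroup (Equiv.Perm (Fin N)),
    alternatingGroup (Fin N) ≤ T → Rigid ((2 ^ j - 1) * (N / 2 ^ j)) T) ∧
  (∀ (F : Type) [Field F] [Finite F] [CharP F 2],
    Rigid (Nat.card F - 1) (Matrix.SpecialLinearGroup (Fin 2) F)) ∧
  ∀ a b : ℕ, 0 < a → 0 < b → Nat.Coprime a b →
    Rigid ((2 ^ a - 1) * (2 ^ b - 1)) (Matrix.GeneralLinearGroup (Fin (a + b)) (ZMod 2))

section

variable {K : Type} (M : Type) [Field K] [NumberField K] [Field M] [NumberField M] [Algebra K M]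
  [IsGalois K M] (W : WeierstrassCurve (𝓞 K)) (s₀ : ℂ) (n : ((M ≃ₐ[K] M) → ℂ) → ℤ)
  (r : IntermediateField K M → ℤ) (k : ℕ)

/-- `L(E/F, s)` and all `L(E/F ⊗ ψ, s)`, `ψ` a linear character of `Gal(M/F)`, are holomorphic
at `s₀`, for all `K ⊆ F ⊆ M`. -/
def Holomorphic : Prop :=
  (∀ F, 0 ≤ r F) ∧ ∀ (H : Subgroup (M ≃ₐ[K] M)) (ψ : H →* ℂˣ),
    ∃ l : ℤ, 0 ≤ l ∧ HasOrder (twistedL M W (induced H ψ)) s₀ l

/-- Let `X_i` be pairwise commuting normal subgroups of `G`, `X_i` rigid below `b_i`. Then the sum of
the `b_i` over the `i` for which some `χ` with `n χ ≠ 0` is not trivial on `[X_i, X_i]` is at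
most `k`. -/
def NormalSubgroups : Prop :=
  ∀ (ι : Type) (X : ι → Subgroup (M ≃ₐ[K] M)) (b : ι → ℕ), (∀ i, (X i).Normal) →
    (∀ i j, i ≠ j → ∀ x ∈ X i, ∀ y ∈ X j, x * y = y * x) → (∀ i, Rigid (b i) (X i)) →
    ∀ s : Finset ι, (∀ i ∈ s, ∃ χ ∈ Irr (M ≃ₐ[K] M), n χ ≠ 0 ∧
      ∃ x ∈ ⁅X i, X i⁆, χ x ≠ χ 1) → ∑ i ∈ s, b i ≤ k

/-- `n χ` is zero for the `χ` which are not trivial on `D`, and the order of `L(E/F, s)` depends only on
the intersection of `F` with the fixed field of `D`. -/
def Invisible (D : Subgroup (M ≃ₐ[K] M)) : Prop :=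
  (∀ χ ∈ Irr (M ≃ₐ[K] M), (∃ x ∈ D, χ x ≠ χ 1) → n χ = 0) ∧
  ∀ F : IntermediateField K M, r F = r (F ⊓ IntermediateField.fixedField D)

/-- Let the subgroups `X_i` be a family. Then the subgroup generated by the `[X_i, X_i]` is invisible.
If `G` is solvable modulo the subgroup generated by the `X_i`, then `L(E/F, s)` and all
`L(E/F ⊗ ψ, s)` are holomorphic at `s₀`, for all `K ⊆ F ⊆ M`; if `G` is abelian modulo this subgroup,
then `L(E ⊗ χ, s)` is holomorphic at `s₀` for all irreducible characters `χ` of `G`. -/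
def Families : Prop :=
  ∀ (ι : Type) [Finite ι] (X : ι → Subgroup (M ≃ₐ[K] M)), Family k X →
    Invisible M n r (⨆ i, ⁅X i, X i⁆) ∧
    ((∃ j, derivedSeries (M ≃ₐ[K] M) j ≤ ⨆ i, X i) → Holomorphic M W s₀ r) ∧
    (commutator (M ≃ₐ[K] M) ≤ ⨆ i, X i → ∀ χ ∈ Irr (M ≃ₐ[K] M), 0 ≤ n χ)

/-- Let `G` be isomorphic to the wreath product of a finite group `T`, rigid below `b`, with `Q`, and
`k < b |Q|`. If `Q` is solvable, then all `L(E/F, s)` and `L(E/F ⊗ ψ, s)`, `K ⊆ F ⊆ M`, are
holomorphic at `s₀`. If `Q` is abelian, then all `L(E ⊗ χ, s)` are holomorphic at `s₀`. -/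
def WreathProducts : Prop :=
  ∀ (T Q : Type) [Group T] [Finite T] [Group Q] [Finite Q] (b : ℕ), Rigid b T →
    k < b * Nat.card Q → Nonempty ((M ≃ₐ[K] M) ≃* RegularWreathProduct T Q) →
    (Group.IsSolvable Q → Holomorphic M W s₀ r) ∧
    ((∀ x y : Q, x * y = y * x) → ∀ χ ∈ Irr (M ≃ₐ[K] M), 0 ≤ n χ)

/-- The layered normal subgroups `D` are invisible, and `L(E/M^H ⊗ ψ, s)` is holomorphic at `s₀` for
all subgroups `H` such that `H / (H ∩ D)` is wide, and all linear characters `ψ` of `H`. -/
def Towers : Prop :=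
  ∀ D : Subgroup (M ≃ₐ[K] M), Layered k D → Invisible M n r D ∧
    ∀ (H : Subgroup (M ≃ₐ[K] M)) (P : Type) [Group P] (π : H →* P),
      Function.Surjective π → π.ker = D.subgroupOf H → Wide k P inferInstance →
      ∀ ψ : H →* ℂˣ, ∃ l : ℤ, 0 ≤ l ∧ HasOrder (twistedL M W (induced H ψ)) s₀ l

end

/-- **Commuting subgroups of the Galois group.**
(A) Rigidity: every finite group below the degree `2`, every nonabelian simple group below the
degree `3`, and sharp bounds for `A_N`, `S_N` (`N` a power of two) and `SL_2(2^a)`.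
(B) Let `E/K` be automorphic over the Galois extension `M/K` with group `G`, `Re s₀ ≥ 1`, and let `k` be
the order of `L(E/M, s)` at `s₀`.
1. Let `X_i` be pairwise commuting normal subgroups of `G`, `X_i` rigid below `b_i` (for instance
`b_i = 2`). Then the sum of the `b_i` over the `i` for which some `χ` with `n χ ≠ 0` is not trivial on
`[X_i, X_i]` is at most `k`.
2. Let `X_i`, `i ∈ ι`, be a family: pairwise commuting subgroups, permuted transitively by `G`, with
`k < b |ι|` and all `X_i` rigid below `b` (for instance `k < 2 |ι|`); let `D` be the subgroup generated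
by the `[X_i, X_i]`.
 - `L(E ⊗ χ, s)` has neither a zero nor a pole at `s₀` if `χ` is not trivial on `D`.
 - `L(E/F, s)` and `L(E/F ∩ M^D, s)` have the same order at `s₀`, for all `K ⊆ F ⊆ M`.
 - If `G` is solvable modulo the subgroup generated by the `X_i`, then `L(E/F, s)` and all
   `L(E/F ⊗ ψ, s)`, `ψ` a linear character of `Gal(M/F)`, are holomorphic at `s₀`, for all
   `K ⊆ F ⊆ M`.
 - If `G` is abelian modulo this subgroup, then `L(E ⊗ χ, s)` is holomorphic at `s₀` for ALL
   irreducible characters `χ` of `G`.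
3. Wreath products of a finite group `T`, rigid below `b`, with `Q`, `k < b |Q|`.
4. The first two statements in 2. hold for all layered normal subgroups `D` of `G` (`D` is built in
several steps by families in quotients of `G`), and `L(E/M^H ⊗ ψ, s)` is holomorphic at `s₀` for all
subgroups `H` such that `H / (H ∩ D)` is wide, and all linear characters `ψ` of `H`. -/
theorem result :
    RigidGroups ∧
    ∀ (K M : Type) [Field K] [NumberField K] [Field M] [NumberField M] [Algebra K M]
      [IsGalois K M] (E : WeierstrassCurve K) (_ : E.IsElliptic) (W : WeierstrassCurve (𝓞 K))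
      (_ : IsModel E W) (s₀ : ℂ) (_ : 1 ≤ s₀.re) (_ : Automorphic M W s₀),
      ∃ (n : ((M ≃ₐ[K] M) → ℂ) → ℤ) (r : IntermediateField K M → ℤ) (k : ℕ),
        Orders E W s₀ n r ∧ r ⊤ = k ∧ NormalSubgroups M n k ∧ Families M W s₀ n r k ∧
        WreathProducts M W s₀ n r k ∧ Towers M W s₀ n r k := by
  refine ⟨⟨fun T _ _ => rigid_two T, fun T _ _ h1 h2 => rigid_three h1 h2,
    fun T _ _ _ h => rigid_simple h, fun N j hN hj T hT => rigid_sym hN hj T hT,
    fun F _ _ _ => rigid_sl, fun a b ha hb hab => rigid_gl ha hb hab⟩, ?_⟩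
  intro K M _ _ _ _ _ _ E hE W hW s₀ hs a
  obtain ⟨n, r, ho⟩ := exists_orders (M := M) hE hW hs a
  obtain ⟨k, hk⟩ := Int.eq_ofNat_of_zero_le (ho.nonneg hE hW hs a)
  have fam : Families M W s₀ n r k := by
    intro ι _ X hX
    have hL := hX.layered
    refine ⟨⟨fun χ hχ h => curve_zero hE hW hs a ho hk hL hχ h,
      fun F => curve_field hE hW hs a ho hk hL F⟩, ?_, ?_⟩
    · rintro ⟨j, hj⟩
      have h1 := hX.derived_le hj
      exact ⟨fun F => curve_field_sol hE hW hs a ho hk hL h1 F,
        fun H ψ => curve_hol_sol hE hW hs a ho hk hL h1 H ψ⟩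
    · intro hc χ hχ
      exact curve_met hE hW hs a ho hk hL (hX.derived_le (k := 1)
        (by rw [derivedSeries_one]; exact hc)) hχ
  refine ⟨n, r, k, ho, hk, ?_, fam, ?_, ?_⟩
  · intro ι X b hn hc hb s hvis
    exact curve_add hE hW hs a ho hk X b hn hc hb s hvis
  · rintro T Q _ _ _ _ b hb hlt ⟨e⟩
    have hfin : Finite (RegularWreathProduct T Q) := Finite.of_equiv _ e.toEquiv
    have hF := (wreath_family (T := T) (Q := Q) hb hlt).of_equiv e
    have hle : ∀ S : Subgroup (M ≃ₐ[K] M), (∀ x ∈ S, (e x).right = 1) →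
        S ≤ ⨆ q : Q, ((copy T q).range).comap e.toMonoidHom := by
      intro S hS x hx
      have h1 := base_le (e x) (hS x hx)
      have h2 : x = e.symm (e x) := (e.symm_apply_apply x).symm
      rw [h2]
      have h3 : (⨆ q : Q, (copy T q).range : Subgroup (RegularWreathProduct T Q)) ≤
          (⨆ q : Q, ((copy T q).range).comap e.toMonoidHom).comap e.symm.toMonoidHom := by
        refine iSup_le fun q y hy => ?_
        rw [Subgroup.mem_comap]
        refine (le_iSup (fun q : Q => ((copy T q).range).comap e.toMonoidHom) q) ?_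
        rw [Subgroup.mem_comap]
        change e (e.symm y) ∈ _
        rw [e.apply_symm_apply]
        exact hy
      exact h3 h1
    obtain ⟨-, h3, h4⟩ := fam Q _ hF
    let ρ : (M ≃ₐ[K] M) →* Q := RegularWreathProduct.rightHom.comp e.toMonoidHom
    refine ⟨fun hQ => h3 ?_, fun hQ => h4 ?_⟩
    · obtain ⟨j, hj⟩ := (Group.isSolvable_def Q).mp hQ
      refine ⟨j, hle _ fun x hx => ?_⟩
      have h5 : ρ x ∈ derivedSeries Q j :=
        map_derivedSeries_le_derivedSeries (f := ρ) j ⟨x, hx, rfl⟩
      rw [hj, Subgroup.mem_bot] at h5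
      exact h5
    · refine hle _ fun x hx => ?_
      have h5 : commutator (M ≃ₐ[K] M) ≤ ρ.ker := by
        rw [commutator_def, Subgroup.commutator_le]
        intro x _ y _
        rw [MonoidHom.mem_ker, map_commutatorElement, commutatorElement_eq_one_iff_mul_comm]
        exact hQ _ _
      exact h5 hx
  · intro D hD
    exact ⟨⟨fun χ hχ h => curve_zero hE hW hs a ho hk hD hχ h,
      fun F => curve_field hE hW hs a ho hk hD F⟩,
      fun H P _ π hπ hker hw ψ => curve_hol hE hW hs a ho hk hD H π hπ hker hw ψ⟩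

end Pool.Agent.Results.MP_bf61d2_nt.CommutingFamilies
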