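import Pool.Agent.H480.M8
import Pool.Agent.H480.U7

/-!
# Meromorphic continuation is a local low-rank property of smoothed sums of the coefficients

Let `L(s) = ∏_p ∏_j (1 - α_j(p) p^(-s))⁻¹` be an Euler product with `|α_j(p)| ≤ p^w`; for example `L(E/K, s)` for an
elliptic curve `E` over a number field `K`, where the product over the places `v` of `K` above `p` is
`∏_v L_v(p^(-f_v s))⁻¹ = ∏_j (1 - α_j(p) p^(-s))⁻¹` with at most `2 [K : ℚ]` numbers `α_j(p)` (and zeros), the roots of
order `f_v` of the inverse zeros of `L_v(T)`. Let `a(n)` be its Dirichlet coefficients and let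

  `V_λ(x) = ∑_n a(n) exp(- log(x/n)² / (2λ))`

be their sum around `x`, smoothed by a Gaussian in the logarithmic scale. Fix `A, A' > 1` and look at the kernel
`(x, y) ↦ V_λ(X x y)` on the rectangle `[1, A] × [1, A']`. Let `-∞ ≤ δ < ∞` and let `r` be a number. We prove that the
following are equivalent:

1. `L(s)` continues to a meromorphic function on `Re s > δ` with at most `r` poles (with multiplicity), of growth
   `exp(C t²)` in vertical strips, for some `C`;
2. for all large `λ` and all `β > δ` and all large `X` the kernel `V_λ(X x y)` is in the mean within `X^β` of SOME sum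
   of `r` products `u_i(x) v_i(y)`;
3. this holds for one `λ > 0`.

The same holds with growth `exp(ε t²)` for all `ε > 0` in (1) (all L-functions should have polynomial growth in
vertical strips) and all `λ > 0` in (2). The case `δ = -∞`, `r = 0` is holomorphy on the whole plane, `δ = -∞`,
`r > 0` is meromorphy on the whole plane with at most `r` poles. There is also a version with finitely many
poles to the right of every vertical line.

The `u_i`, `v_i` are arbitrary integrable functions; they may depend on `X` in any way, and there is no condition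
which relates the approximations at different scales `X`. No poles, no residues and no main terms are given: the
existence of the continuation, the position of the poles and the form of the main terms are consequences of
a qualitative property (bounded approximate rank on one small rectangle, at each scale separately). So the statement
is an analogue for Dirichlet series of the criteria of Kronecker and Borel-Dwork for the rationality or meromorphy of power
series, in terms of the ranks of Hankel matrices.

Proof of (3) ⇒ (1). An approximation of rank `r` at the scale `X` gives a linear recurrence of length `r`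
for the averages of `V_λ(e^u)`, which holds up to `X^β` in a window around `log X`, with coefficients that depend on the
window. A rigidity theorem (Padé type denominators of consecutive windows on circles that avoid their zeros; a
limit of the recurrences by compactness) gives one recurrence that holds at all scales. Its Laplace transform
continues `P(e^(hs)) e^(λs²/2) L(s)` to `Re s > β`, `P ≠ 0` a polynomial of degree `≤ r`. This holds for all small `h > 0`
with different `P`; for `h` so small that finitely many given poles are distinct modulo `2πi/h` they are zeros of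
`P(e^(hs))`, whence at most `r` poles, with multiplicity. The growth follows from the maximum principle on
rectangles which are bounded by lines on which `P(e^(hs))` is bounded from below. The converse uses Newton
interpolation at the poles, Plancherel's theorem and the addition law of matrix exponentials.
-/

set_option autoImplicit false

open Filter Topology MeasureTheory Set

namespace Pool.Agent.Results.MP_bf61d2_nt.LocalRankContinuation

/-- `|a(n)| ≤ B n^b` -/
def PolynomiallyBounded (a : ℕ → ℂ) : Prop := ∃ b B : ℝ, ∀ n : ℕ, n ≠ 0 → ‖a n‖ ≤ B * (n : ℝ) ^ b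

/-- the completely multiplicative function with the values `β p` at the primes `p` -/
noncomputable def completelyMultiplicative (β : ℕ → ℂ) : ArithmeticFunction ℂ :=
  ⟨fun n => if n = 0 then 0 else n.factorization.prod fun p k => β p ^ k, by simp⟩

/-- the Dirichlet coefficients of `∏_p ∏_j (1 - α_j(p) p^(-s))⁻¹`: the Dirichlet convolution of the completely
multiplicative functions with the values `α_j(p)` -/
noncomputable def coeff {d : ℕ} (α : Fin d → ℕ → ℂ) : ArithmeticFunction ℂ := ∏ j, completelyMultiplicative (α j)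

/-- the smoothed sum `V_λ(x) = ∑ a(n) exp(- log(x/n)² / (2λ))`, `n ≥ 1` -/
noncomputable def V (a : ℕ → ℂ) (lam x : ℝ) : ℂ :=
  ∑' n : ℕ, if n = 0 then 0 else a n * (Real.exp (-Real.log (x / n) ^ 2 / (2 * lam)) : ℝ)

/-- on the rectangle `[1, A] × [1, A']` the kernel `S(X x y)` is in the mean within `ε` of a sum of `r` products
`u_i(x) v_i(y)` of integrable functions of one variable -/
def WithinRank (S : ℝ → ℂ) (A A' : ℝ) (r : ℕ) (ε X : ℝ) : Prop :=
  ∃ u v : Fin r → ℝ → ℂ, (∀ i, IntegrableOn (u i) (Icc 1 A)) ∧ (∀ i, IntegrableOn (v i) (Icc 1 A')) ∧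
    ∫ z in Icc 1 A ×ˢ Icc 1 A', ‖S (X * z.1 * z.2) - ∑ i, u i z.1 * v i z.2‖ ≤ ε

/-- the Dirichlet series `F(s) = ∑ a(n) n^(-s)` continues to the meromorphic function `g(s) / ∏ (s - ρ_j)` on
`Re s > δ`: `g` is holomorphic there, the `ρ_j` lie there, and the identity holds to the right of some line -/
structure Continuation (a : ℕ → ℂ) (δ : EReal) (r : ℕ) (ρ : Fin r → ℂ) (g : ℂ → ℂ) : Prop where
  poles : ∀ j, δ < ((ρ j).re : EReal)
  holo : ∀ s : ℂ, δ < (s.re : EReal) → DifferentiableAt ℂ g s
  eq : ∃ c : ℝ, ∀ s : ℂ, c < s.re → g s = (∏ j, (s - ρ j)) * LSeries a s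

/-- `g(σ + it) = O(exp(C t²))` in each strip `σ₁ ≤ σ ≤ σ₂`, `σ₁ > δ` -/
def Growth (δ : EReal) (C : ℝ) (g : ℂ → ℂ) : Prop :=
  ∀ σ₁ σ₂ : ℝ, δ < (σ₁ : EReal) → ∃ K : ℝ, ∀ s : ℂ, σ₁ ≤ s.re → s.re ≤ σ₂ → ‖g s‖ ≤ K * Real.exp (C * s.im ^ 2)

open Pool.Agent.H480.K in
theorem cont_iff {a : ℕ → ℂ} {δ : EReal} {r : ℕ} {ρ : Fin r → ℂ} {g : ℂ → ℂ} :
    Continuation a δ r ρ g ↔ Cont a δ r ρ g := ⟨fun h => ⟨h.1, h.2, h.3⟩, fun h => ⟨h.1, h.2, h.3⟩⟩

open Pool.Agent.H480.K in
theorem result :
    -- Euler products have polynomially bounded coefficients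
    (∀ (d : ℕ) (w : ℝ) (α : Fin d → ℕ → ℂ), (∀ j, ∀ p : ℕ, p.Prime → ‖α j p‖ ≤ (p : ℝ) ^ w) →
      PolynomiallyBounded (coeff α) ∧ ∀ s : ℂ, 1 < s.re → w + 1 < s.re →
        LSeries (coeff α) s = ∏' p : Nat.Primes, ∏ j, (1 - α j p * (p : ℂ) ^ (-s))⁻¹) ∧
    ∀ (a : ℕ → ℂ), PolynomiallyBounded a → ∀ A A' : ℝ, 1 < A → 1 < A' →
      -- at most `r` poles in the half-plane `Re s > δ`
      (∀ δ : EReal, δ < ⊤ → ∀ r : ℕ,
        List.TFAE
          [∃ ρ g, Continuation a δ r ρ g ∧ ∃ C : ℝ, Growth δ C g,
           ∃ lam₀ : ℝ, ∀ lam : ℝ, lam₀ < lam → ∀ β : ℝ, δ < (β : EReal) → ∀ᶠ X : ℝ in atTop,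
            WithinRank (V a lam) A A' r (X ^ β) X,
           ∃ lam : ℝ, 0 < lam ∧ ∀ β : ℝ, δ < (β : EReal) → ∀ᶠ X : ℝ in atTop,
            WithinRank (V a lam) A A' r (X ^ β) X] ∧
        ((∃ ρ g, Continuation a δ r ρ g ∧ ∀ ε : ℝ, 0 < ε → Growth δ ε g) ↔
          ∀ lam : ℝ, 0 < lam → ∀ β : ℝ, δ < (β : EReal) → ∀ᶠ X : ℝ in atTop,
            WithinRank (V a lam) A A' r (X ^ β) X)) ∧
      -- finitely many poles to the right of every vertical line
      ((∃ C : ℝ, ∀ δ : ℝ, ∃ r ρ g, Continuation a δ r ρ g ∧ Growth δ C g) ↔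
        ∃ lam : ℝ, 0 < lam ∧ ∀ β : ℝ, ∃ r : ℕ, ∀ᶠ X : ℝ in atTop, WithinRank (V a lam) A A' r (X ^ β) X) := by
  refine ⟨fun d w α hα => ?_, fun a ha A A' hA hA' => ?_⟩
  · set θ : ℝ := max w 0 with hθ
    have hα' : ∀ j, ∀ p : ℕ, p.Prime → ‖α j p‖ ≤ (p : ℝ) ^ θ := fun j p hp =>
      (hα j p hp).trans (Real.rpow_le_rpow_of_exponent_le (by exact_mod_cast hp.one_lt.le) (le_max_left _ _))
    have e1 : coeff α = cf α 1 := by
      unfold cf
      rw [pow_one]
      rfl
    obtain ⟨b, -, hb⟩ := cf_bd (m := d) (θ := θ) (le_max_right _ _) 1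
    refine ⟨⟨b, 1, fun n hn => ?_⟩, fun s h1 h2 => ?_⟩
    · rw [e1, one_mul]
      exact hb α hα' n hn
    · have h3 : θ + 1 < s.re := by
        rcases max_choice w 0 with h | h
        · rw [hθ, h]; exact h2
        · rw [hθ, h]; linarith
      have h4 := (cf_series α hα' 1 h3).LSeries_eq
      rw [pow_one] at h4
      rw [e1]
      exact h4
  · obtain ⟨b, B, hB⟩ := ha
    have hB' : ∀ n : ℕ, n ≠ 0 → ‖a n‖ ≤ |B| * (n : ℝ) ^ b := fun n hn =>
      (hB n hn).trans (mul_le_mul_of_nonneg_right (le_abs_self _) (by positivity))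
    refine ⟨fun δ hδ r => ⟨?_, ?_⟩, ?_⟩
    · simp only [cont_iff]
      exact mero_tfae (abs_nonneg B) hB' hA hA' hδ r
    · simp only [cont_iff]
      exact mero_iff (abs_nonneg B) hB' hA hA' hδ r
    · simp only [cont_iff]
      exact mero_all (abs_nonneg B) hB' hA hA'

end Pool.Agent.Results.MP_bf61d2_nt.LocalRankContinuation
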