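import Pool.Agent.H453.HW.Rel
import Pool.Agent.H453.CM.Fld

/-!
# The functional equation of Hasse and Weil: reduction to the curves that look CM

An elliptic curve `E` over a number field `F` **looks CM modulo `m`** if there is an endomorphism `φ` of the
group `E[m]` which is not a multiplication by an integer on `E[ℓ]`, for every prime `ℓ ∣ m`, such that for
every `σ` in the absolute Galois group of `F` there are integers `a`, `b` with `σ φ σ⁻¹ = a + b φ` on
`E[m]`.  If `E` has complex multiplication by `ℤ + ℤ φ` (over an extension of `F`), this holds for all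
`m`, and the Hasse-Weil conjecture is known (Deuring).  If `E` has no complex multiplication, then it looks CM
only modulo finitely many primes (Serre), namely modulo the `ℓ` for which the image of the Galois group in
`Aut(E[ℓ])` is contained in a Borel subgroup or in the normaliser of a Cartan subgroup.

Let `E` be a semistable elliptic curve over a number field `K`.  The functional equation of the question,
with the conductor, the root number and all Euler factors,

  `w(E/K) L*(E/K, s) = L*(E/K, 2 - s)`, `L*(s) = N^{s/2} π^{-ds} (Γ(s/2) Γ((s+1)/2))^d L(s)`,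

for a meromorphic continuation of `L(E/K, s)` to the plane, is reduced to the same statement over
finitely many finite extensions `F_i` of `K` over which `E` looks CM modulo any given squarefree number (and
modulo all divisors `m` of any given number with `p_i² ∤ m`, for a prime `p_i`) and has rank at least any
given `R`: there are integers `e_i` such that, exactly,

  `L(E/K, s) = ∏ L(E/F_i, s) ^ e_i`, `N(E/K) = ∏ N(E/F_i) ^ e_i`, `w(E/K) = ∏ w(E/F_i) ^ e_i`,
  `[K : ℚ] = ∑ e_i [F_i : ℚ]`.

So the functional equation for all semistable elliptic curves over all number fields is equivalent to the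
functional equation for those which have rank at least `R` and look CM modulo `N` (`N` squarefree) and for
those with `j = 0` or `j = 1728`; and the functional equation for one curve over all finite extensions of
`K` is equivalent to the functional equation over those extensions of `K` over which the curve looks CM
modulo `N` and has rank at least `R`.

The proof.  Brauer induction, with the fields of `Pool.Agent.N683.H2` (where it is shown that the rank can
be made large), gives fields `F_i` over which the Galois group of `K(E[N²])` is `p_i`-hyperelementary,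
`C ⋊ P` with a cyclic group `C` and a `p_i`-group `P`.  Let `ℓ ^ k ∣ N`.  In a basis of `E[ℓ ^ (2k)]`
a generator `c` of `C` is `s + ℓ ^ a x` with an integer `s` and an `x` that is not scalar modulo `ℓ`.
If `a < k`, then `σ c σ⁻¹ = c ^ j` and the theorem of Cayley and Hamilton show that `φ = x` has the
required property on `E[ℓ ^ k]`, since `2 k - a ≥ k`.  If `a ≥ k`, then the image of the Galois group in
`Aut(E[ℓ ^ k])` modulo the scalars is a `p_i`-group; if it is not trivial, then it has a nontrivial central
element, and a preimage `φ` of it satisfies `σ φ σ⁻¹ = b φ`.  It is not scalar modulo `ℓ` if `ℓ ≠ p_i` or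
`k = 1`.  The relation between the permutation characters of the `F_i / K` is used at all places, ramified
places included (`Pool.Agent.N19.BR`): the Euler factors of a semistable curve, the primes of bad and of
split multiplicative reduction above a prime `v` depend only on the residue degrees.

The minimal models `V`, the Euler product, the level `N = |Δ_F|² N(f)`, the root number, the completed
function and the statement `HasseWeil` are those of `Pool.Agent.N19.BR.Def` and `Pool.Agent.N19.BR.FDef`;
`Ext K` is the type of the finite extensions of `K`.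
-/

set_option autoImplicit false

namespace Pool.Agent.Results.MP_bf61d2_nt.LooksCM

open NumberField IsDedekindDomain
open Pool.Agent.R433.MD (Ext)
open Pool.Agent.N19.BR.Def Pool.Agent.N19.BR.FDef
open scoped Classical

/-- The group of the geometric points of the elliptic curve `E` over the field `F`. -/
abbrev GeometricPoints {F : Type} [Field F] (E : WeierstrassCurve F) : Type :=
  (E.baseChange (AlgebraicClosure F)).toAffine.Point

/-- The action of `σ ∈ Gal(F̄/F)` on the geometric points. -/
noncomputable def galoisAction {F : Type} [Field F] (E : WeierstrassCurve F)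
    (σ : AlgebraicClosure F ≃ₐ[F] AlgebraicClosure F) : GeometricPoints E →+ GeometricPoints E :=
  WeierstrassCurve.Affine.Point.map (W' := E) (σ : AlgebraicClosure F →ₐ[F] AlgebraicClosure F)

/-- `G` acts by automorphisms `ρ g` on the abelian group `V`.  The action looks CM modulo `m` if there is
an endomorphism `φ` of the group `V[m]` of the elements killed by `m` (the image of a homomorphism from
`V[m]` to `V` is contained in `V[m]`) such that
* for every prime `ℓ ∣ m` there is a `P ∈ V[ℓ]` such that `φ P` is not a multiple of `P`;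
* for every `g ∈ G` there are integers `a` and `b` such that `g φ = (a + b φ) g` on `V[m]`. -/
def ActionLooksCM {G V : Type} [AddCommGroup V] (ρ : G → V →+ V) (m : ℕ) : Prop :=
  ∃ φ : AddSubgroup.torsionBy V (m : ℤ) →+ V,
    (∀ l : ℕ, l.Prime → l ∣ m → ∃ P : AddSubgroup.torsionBy V (m : ℤ),
      l • P = 0 ∧ ∀ a : ℤ, φ P ≠ a • (P : V)) ∧
    ∀ g : G, ∃ a b : ℤ, ∀ P Q : AddSubgroup.torsionBy V (m : ℤ),
      (Q : V) = ρ g P → ρ g (φ P) = a • (Q : V) + b • φ Q

/-- The elliptic curve `E` over `F` looks CM modulo `m`: there is an endomorphism `φ` of `E[m]`, which is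
not a multiplication by an integer on `E[ℓ]` for any prime `ℓ ∣ m`, such that for every
`σ ∈ Gal(F̄/F)` there are integers `a` and `b` with `σ φ σ⁻¹ = a + b φ` on `E[m]`. -/
def LooksCM {F : Type} [Field F] (E : WeierstrassCurve F) (m : ℕ) : Prop :=
  ActionLooksCM (galoisAction E) m

/-- `E` looks CM modulo all divisors of `N` that are not divisible by `p ^ 2`, for some prime `p`. -/
def AlmostLooksCM {F : Type} [Field F] (E : WeierstrassCurve F) (N : ℕ) : Prop :=
  ∃ p : ℕ, p.Prime ∧ ∀ m : ℕ, m ∣ N → ¬ p ^ 2 ∣ m → LooksCM E m

/-- The rank of the elliptic curve `E` over `F` is at least `R`. -/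
def RankAtLeast {F : Type} [Field F] (R : ℕ) (E : WeierstrassCurve F) : Prop :=
  (R : Cardinal) ≤ Module.rank ℤ E.toAffine.Point

/-- The `L`-series of an elliptic curve over `F`, the product of the Euler factors of the minimal models
`V`. -/
noncomputable def LFunction {F : Type} [Field F] [NumberField F]
    (V : HeightOneSpectrum (𝓞 F) → WeierstrassCurve (𝓞 F)) (s : ℂ) : ℂ := ∏' v, factor V s v

/-- The properties of the extensions `F = Z.F` of `K`: for a prime number `p`
* `E` looks CM over `F` modulo all divisors `m` of `N` that are not divisible by `p ^ 2`;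
* the Galois group of `L F / F` is `p`-hyperelementary, the divisors of `n` prime to `p` divide the local
  degrees of `F / K` above `S`, and `F` has at most two real places if `p ≠ 2`. -/
def Special {K : Type} [Field K] [NumberField K] (E : WeierstrassCurve K) (L : Type) [Field L]
    [Algebra K L] (S : Set (HeightOneSpectrum (𝓞 K))) (n N : ℕ) (Z : Ext K) : Prop :=
  ∃ p : ℕ, p.Prime ∧
    (∀ m : ℕ, m ∣ N → ¬ p ^ 2 ∣ m → LooksCM (E.map (algebraMap K Z.F)) m) ∧
    HyperelementaryOver p L Z ∧
    (∀ k : ℕ, k ∣ n → k.Coprime p → LocalDegreesDivisible S k Z) ∧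
    (p ≠ 2 → AtMostTwoRealPlaces Z)

/-- The exact relations: `[K : ℚ] = ∑ e_i [F_i : ℚ]`, and
`L(E/K, s) = ∏ L(E/F_i, s) ^ e_i` for `Re s > 3/2`, `N(E/K) = ∏ N(E/F_i) ^ e_i`,
`w(E/K) = ∏ w(E/F_i) ^ e_i`, for the `L`-series with all Euler factors, the levels
`N(E/F) = |Δ_F|² N(f_{E/F})` and the root numbers. -/
def Relations {K : Type} [Field K] [NumberField K] (E : WeierstrassCurve K)
    {k : ℕ} (F : Fin k → Ext K) (e : Fin k → ℤ) : Prop :=
  (Module.finrank ℚ K : ℤ) = ∑ i, e i * (Module.finrank ℚ (F i).F : ℤ) ∧
  ∀ (V : HeightOneSpectrum (𝓞 K) → WeierstrassCurve (𝓞 K)) (_ : MinimalModels E V)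
    (W : ∀ i, HeightOneSpectrum (𝓞 (F i).F) → WeierstrassCurve (𝓞 (F i).F))
    (_ : ∀ i, MinimalModels (E.map (algebraMap K (F i).F)) (W i)),
    (∀ s : ℂ, 3 / 2 < s.re → LFunction V s = ∏ i, LFunction (W i) s ^ e i) ∧
    (level V : ℝ) = ∏ i, (level (W i) : ℝ) ^ e i ∧
    (rootNumber V : ℚ) = ∏ i, (rootNumber (W i) : ℚ) ^ e i

/-- The first part of the theorem, for one curve. -/
def Reduction (K : Type) [Field K] [NumberField K] (E : WeierstrassCurve K) (L : Type) [Field L]
    [Algebra K L] (S : Set (HeightOneSpectrum (𝓞 K))) (n N R : ℕ) : Prop :=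
  ∃ (k : ℕ) (F : Fin k → Ext K) (e : Fin k → ℤ),
    (∀ i, RankAtLeast R (E.map (algebraMap K (F i).F)) ∧ Special E L S n N (F i)) ∧
    Relations E F e ∧
    ((∀ i, HasseWeil (E.map (algebraMap K (F i).F))) → HasseWeil E)

/-- The first part of the theorem. -/
def ReductionForAll : Prop :=
  ∀ (K : Type) [Field K] [NumberField K] (E : WeierstrassCurve K) [E.IsElliptic],
    Semistable E → E.j ≠ 0 → E.j ≠ 1728 → ∀ (L : Type) [Field L] [NumberField L] [Algebra K L]
    [IsGalois K L] (S : Set (HeightOneSpectrum (𝓞 K))), S.Finite → ∀ n : ℕ, n ≠ 0 →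
    ∀ N : ℕ, N ≠ 0 → ∀ R : ℕ, Reduction K E L S n N R

/-- One semistable curve over all finite extensions of `K`: the functional equation over all of them
follows from the functional equation over those for which `E` has rank at least `R` and the property
`C`. -/
def FixedCurve (R : ℕ) (C : ∀ (F : Type) [Field F], WeierstrassCurve F → Prop) : Prop :=
  ∀ (K : Type) [Field K] [NumberField K] (E : WeierstrassCurve K) [E.IsElliptic],
    Semistable E → E.j ≠ 0 → E.j ≠ 1728 →
    ((∀ Z : Ext K, HasseWeil (E.map (algebraMap K Z.F))) ↔
      ∀ Z : Ext K, RankAtLeast R (E.map (algebraMap K Z.F)) → C Z.F (E.map (algebraMap K Z.F)) →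
        HasseWeil (E.map (algebraMap K Z.F)))

/-- All semistable curves over all number fields: the functional equation for all of them follows from the
functional equation for those with rank at least `R` and the property `C`, and for those with `j = 0` or
`j = 1728`. -/
def AllCurves (R : ℕ) (C : ∀ (F : Type) [Field F], WeierstrassCurve F → Prop) : Prop :=
  (∀ (K : Type) [Field K] [NumberField K] (E : WeierstrassCurve K) [E.IsElliptic],
      Semistable E → HasseWeil E) ↔
    ∀ (K : Type) [Field K] [NumberField K] (E : WeierstrassCurve K) [E.IsElliptic],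
      Semistable E → (RankAtLeast R E ∧ C K E ∨ E.j = 0 ∨ E.j = 1728) → HasseWeil E

/-- **The functional equation of Hasse and Weil and elliptic curves that look CM.**

(1) Let `E` be a semistable elliptic curve over a number field `K` with `j(E) ≠ 0, 1728`, `L/K` a finite
Galois extension, `S` a finite set of primes of `K`, `n, N ≥ 1` and `R` natural numbers.  There are
finitely many finite extensions `F_i` of `K` and integers `e_i` such that
* `E(F_i)` has rank at least `R`;
* for a prime number `p_i`, `E` looks CM over `F_i` modulo all divisors of `N` not divisible by `p_i ^ 2`,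
  `Gal(L F_i / F_i)` is `p_i`-hyperelementary, the part of `n` prime to `p_i` divides the local degrees of
  `F_i / K` above `S`, and `F_i` has at most two real places if `p_i ≠ 2`;
* the relations between the `L`-series (with all Euler factors), the levels, the root numbers and the
  degrees hold exactly;
* if all `L(E/F_i, s)` have a meromorphic continuation to `ℂ` with the functional equation
  `w L*(s) = L*(2 - s)`, then so has `L(E/K, s)`.

(2) Let `N ≥ 1` be squarefree and `R` a natural number.  The functional equation holds for a semistable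
curve over all finite extensions of `K` if and only if it holds over those extensions over which the curve
has rank at least `R` and looks CM modulo `N`; it holds for all semistable elliptic curves over all
number fields if and only if it holds for those with rank at least `R` that look CM modulo `N`, and for
those with `j = 0` or `j = 1728`.

(3) The same with any `N ≥ 1`, if one asks that for some prime number `p`, which depends on the curve, the
curve looks CM modulo all divisors of `N` not divisible by `p ^ 2`. -/
theorem result :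
    ReductionForAll ∧
    (∀ N R : ℕ, Squarefree N →
      FixedCurve R (fun _ _ E => LooksCM E N) ∧ AllCurves R (fun _ _ E => LooksCM E N)) ∧
    ∀ N R : ℕ, N ≠ 0 →
      FixedCurve R (fun _ _ E => AlmostLooksCM E N) ∧ AllCurves R (fun _ _ E => AlmostLooksCM E N) := by
  have main : ReductionForAll := by
    intro K _ _ E hE hs h0 h1728 L _ _ _ _ S hS n hn N hN R
    obtain ⟨L', hfin, hgal, ⟨f⟩, hco⟩ := Pool.Agent.H453.CM.exists_fld K E L (N ^ 2)
      (pow_ne_zero 2 hN)
    have _ : NumberField L' := NumberField.of_module_finite K L'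
    obtain ⟨k, F, e, hrel, hF⟩ := Pool.Agent.N683.H2.list_one K E hE h0 h1728 L' S hS n hn R
    have hdeg := Pool.Agent.N19.BR.degree_rel hrel
    rw [Nat.cast_one, one_mul] at hdeg
    refine ⟨k, F, e, fun i => ⟨(hF i).1, ?_⟩, ⟨hdeg.symm, fun V hV W hW =>
      ⟨fun s h3 => Pool.Agent.H453.HW.L_exact hrel hE hs hV hW h3,
        Pool.Agent.H453.HW.level_exact hrel hE hs hV hW,
        Pool.Agent.H453.HW.root_exact hrel hE hs hV hW⟩⟩,
      fun h => Pool.Agent.N19.BR.hasseWeil_of_rel hrel hE hs h⟩
    obtain ⟨p, hp, hyp, hloc, hreal⟩ := (hF i).2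
    refine ⟨p, hp, fun m hm hpm => ?_, ?_, hloc, hreal⟩
    · exact Pool.Agent.H453.CM.lc_of_hyper K E L'.val hco (F i) hp hyp m
        (fun h => hN (Nat.eq_zero_of_zero_dvd (h ▸ hm))) hm hpm
    · obtain ⟨M, hM, hM2, ⟨g⟩⟩ := hyp
      exact ⟨M, hM, hM2, ⟨g.comp f⟩⟩
  have fixed : ∀ N R : ℕ, N ≠ 0 → FixedCurve R (fun _ _ E => AlmostLooksCM E N) := by
    intro N R hN K _ _ E _ hs h0 h1
    refine ⟨fun h Z _ _ => h Z, fun h Z => ?_⟩
    have hinj : Function.Injective (algebraMap K Z.F) := (algebraMap K Z.F).injective
    have h0' : (E.map (algebraMap K Z.F)).j ≠ 0 := by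
      rw [WeierstrassCurve.map_j]
      exact fun h => h0 (hinj (by rw [h, map_zero]))
    have h1' : (E.map (algebraMap K Z.F)).j ≠ 1728 := by
      rw [WeierstrassCurve.map_j]
      exact fun h => h1 (hinj (by rw [h, map_ofNat]))
    obtain ⟨k, F, e, hF, -, h2⟩ := main Z.F (E.map (algebraMap K Z.F))
      (Pool.Agent.H453.HW.semistable_up hs) h0' h1' Z.F ∅ Set.finite_empty 1 one_ne_zero N hN R
    refine h2 fun i => ?_
    have e1 := Pool.Agent.R433.MD.map_restrict Z (F i) E
    obtain ⟨p, hp, hcm, -⟩ := (hF i).2
    have h3 := h (Z.restrict (F i))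
    rw [e1] at h3
    exact h3 (hF i).1 ⟨p, hp, hcm⟩
  have all : ∀ N R : ℕ, N ≠ 0 → AllCurves R (fun _ _ E => AlmostLooksCM E N) := by
    intro N R hN
    refine ⟨fun h K _ _ E _ hs _ => h K E hs, fun h K _ _ E _ hs => ?_⟩
    by_cases h0 : E.j = 0
    · exact h K E hs (Or.inr (Or.inl h0))
    by_cases h1 : E.j = 1728
    · exact h K E hs (Or.inr (Or.inr h1))
    obtain ⟨k, F, e, hF, -, h2⟩ := main K E hs h0 h1 K ∅ Set.finite_empty 1 one_ne_zero N hN R
    refine h2 fun i => h (F i).F _ (Pool.Agent.H453.HW.semistable_up hs) (Or.inl ⟨(hF i).1, ?_⟩)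
    obtain ⟨p, hp, hcm, -⟩ := (hF i).2
    exact ⟨p, hp, hcm⟩
  have sqf : ∀ (N : ℕ), Squarefree N → ∀ (F : Type) [Field F] (E : WeierstrassCurve F),
      AlmostLooksCM E N → LooksCM E N := by
    intro N hN F _ E hE
    obtain ⟨p, hp, hcm⟩ := hE
    exact hcm N dvd_rfl fun hd => hp.one_lt.ne' (Nat.isUnit_iff.1 (hN p (by rwa [← sq])))
  refine ⟨main, fun N R hN => ⟨?_, ?_⟩, fun N R hN => ⟨fixed N R hN, all N R hN⟩⟩
  · intro K _ _ E _ hs h0 h1
    refine ⟨fun h Z _ _ => h Z, fun h => ?_⟩
    exact (fixed N R hN.ne_zero K E hs h0 h1).2 fun Z hr hcm => h Z hr (sqf N hN _ _ hcm)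
  · refine ⟨fun h K _ _ E _ hs _ => h K E hs, fun h => ?_⟩
    refine (all N R hN.ne_zero).2 fun K _ _ E _ hs hE => h K E hs ?_
    rcases hE with ⟨hr, hcm⟩ | hE
    · exact Or.inl ⟨hr, sqf N hN _ _ hcm⟩
    · exact Or.inr hE

end Pool.Agent.Results.MP_bf61d2_nt.LooksCM
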