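import Pool.Agent.H439.QD.Twist

/-!
# Large values and moments of `L(E_d/K, s)` near the line `Re s = 3/2`, for the quadratic twists `E_d`

Let `E` be an elliptic curve over a number field `K` of degree `n` and let `E_d` be the quadratic twist of
`E` by a squarefree integer `d ≠ 1`.  The Hasse-Weil conjecture says that `L(E_d/K, s)` is entire, and
then it has no zeros on the line `Re s = 3/2`.  For a general number field `K` nothing is known about
`L(E_d/K, s)` outside the half-plane `Re s > 3/2` of absolute convergence, for a single `d`; and in this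
half-plane the product itself gives only `|log |L(E_d/K, 3/2 + ε + it)|| ≤ 2 n log(1/ε) + O(n)`.

The theorem says that at all distances `ε ≥ exp(-x^κ)`, `κ < 1/8`, from the line, uniformly for all
elliptic curves over all number fields, for almost all `|d| ≤ x` the values `L(E_d/K, 3/2 + ε + it)` are
what they must be if the conjecture and the Riemann hypothesis hold: the proportion of the `d` with
`|L| > (C' log y)^{2n}` or `|L| < (C' log y)^{-2n}` is at most `17 exp(-y/4)`, for all `y` up to
`c log x / log log x`.  Consequently, outside a set of `d` of relative size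
`exp(-c log x / log log x)`, all moments of `L` and of `1/L` are bounded, although `ε` can be as small as
`exp(-x^κ)`.

The theorem is stated for arbitrary Euler products with bounded degrees and weights.  For elliptic curves
`P_v` is the polynomial `L_v(T)` of `E` and `Q d v` is the polynomial `L_v(T)` of `E_d`, the degree is
`N = 2`, the weight is `i = 1` (Hasse), and `S` is the set of the primes `v` of `K` which divide `2`, the
discriminant of `K` or the conductor of `E`: if `v` is not in `S` and does not divide `d`, then `E_d` has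
good reduction at `v` and `a_v(E_d) = χ_d(q_v) a_v(E)`; if `v` is not in `S` and divides `d`, then `v(d) = 1`
and `E_d` has additive reduction at `v`, so that `L_v(T) = 1` for `E_d`.
-/

set_option autoImplicit false

namespace Pool.Agent.Results.MP_bf61d2_nt.QuadraticTwistsDeviations

open NumberField IsDedekindDomain Polynomial

section
variable {K : Type} [Field K] [NumberField K]

/-- The Euler product `∏_v P_v(q_v^{-s})⁻¹` over the primes `v` of `K`, where `q_v` is the norm of `v`. -/
noncomputable def L (P : HeightOneSpectrum (𝓞 K) → ℂ[X]) (s : ℂ) : ℂ :=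
  ∏' v : HeightOneSpectrum (𝓞 K), ((P v).eval (((Ideal.absNorm v.asIdeal : ℕ) : ℂ) ^ (-s)))⁻¹

/-- The polynomials `P_v` have constant term `1`, degree at most `N`, and the inverses of their zeros
have absolute value at most `q_v^{i/2}`. -/
structure HasWeights (P : HeightOneSpectrum (𝓞 K) → ℂ[X]) (N i : ℕ) : Prop where
  coeff_zero : ∀ v, (P v).coeff 0 = 1
  natDegree_le : ∀ v, (P v).natDegree ≤ N
  le_norm : ∀ v, ∀ z : ℂ, (P v).IsRoot z →
    ((Ideal.absNorm v.asIdeal : ℕ) : ℝ) ^ (-((i : ℝ) / 2)) ≤ ‖z‖

end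

/-- The quadratic character of `ℚ(√d)`, `d` squarefree, at the prime `p`: the value is `1`, `-1` or `0`
according as `p` is split, inert or ramified. -/
def atPrime (d : ℤ) (p : ℕ) : ℤ :=
  if p = 2 then (if d % 8 = 1 then 1 else if d % 8 = 5 then -1 else 0) else jacobiSym d p

/-- The quadratic character of `ℚ(√d)`, as a completely multiplicative function on the positive
integers. -/
noncomputable def quad (d : ℤ) (n : ℕ) : ℂ :=
  n.factorization.prod fun p k => ((atPrime d p : ℤ) : ℂ) ^ k

open Classical in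
/-- The squarefree integers `d ≠ 1` with `|d| ≤ x`. -/
noncomputable def fields (x : ℕ) : Finset ℤ :=
  (Finset.Icc (-(x : ℤ)) x).filter fun d => Squarefree d ∧ d ≠ 1

/-- Outside the finite set `S` the Euler factors `Q_{d,v}` are those of the quadratic twist by `d`:
`Q_{d,v}(T) = P_v(χ_d(q_v) T)`. -/
def IsTwistFamily {K : Type} [Field K] [NumberField K] (P : HeightOneSpectrum (𝓞 K) → ℂ[X])
    (Q : ℤ → HeightOneSpectrum (𝓞 K) → ℂ[X]) (S : Finset (HeightOneSpectrum (𝓞 K))) : Prop :=
  ∀ d : ℤ, ∀ v ∉ S, ∀ T : ℂ, (Q d v).eval T = (P v).eval (quad d (Ideal.absNorm v.asIdeal) * T)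

/-- **Large deviations and moments of the quadratic twists near the edge.**  There are an absolute
constant `C` and an absolute function `D` with the following property.  Let `A ≥ 1` and `0 < κ < 1/8`.
There are `c > 0` and `x₀` such that for all number fields `K` of degree `n`, all Euler factors `P_v` over
`K` of degree at most `N` and weight at most `i` and all families `Q_d` of Euler factors of degree at most
`N` and weight at most `i` which are those of the quadratic twists of `P` outside a finite set `S`, all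
`x ≥ x₀`, `|t| ≤ x^A` and `exp(-x^κ) ≤ ε ≤ 1/2`, with `s = 1 + i/2 + ε + it`:

* for `3 ≤ y ≤ c log x / log log x` the number of the squarefree `d ≠ 1`, `|d| ≤ x`, with
  `|log |L(Q_d, s)|| > n N (log log y + C) + 2 N |S| log 2` is at most `17 exp(-y/4)` times the number of all
  of them;
* outside a set `E` of at most `exp(-c log x / log log x)` times this number the sum of
  `exp(r |log |L(Q_d, s)||)` is at most `exp(2 r N |S| log 2) D(r n N)` times this number, for every
  `r ≥ 0`. -/
theorem result : ∃ (C : ℝ) (D : ℝ → ℝ), ∀ A κ : ℝ, 1 ≤ A → 0 < κ → κ < 1 / 8 →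
    ∃ (c : ℝ) (x₀ : ℕ), 0 < c ∧ ∀ (K : Type) [Field K] [NumberField K] (N i : ℕ)
      (P : HeightOneSpectrum (𝓞 K) → ℂ[X]) (Q : ℤ → HeightOneSpectrum (𝓞 K) → ℂ[X])
      (S : Finset (HeightOneSpectrum (𝓞 K))), HasWeights P N i → (∀ d, HasWeights (Q d) N i) →
      IsTwistFamily P Q S → ∀ x : ℕ, x₀ ≤ x →
      ∀ t ε : ℝ, |t| ≤ (x : ℝ) ^ A → Real.exp (-(x : ℝ) ^ κ) ≤ ε → ε ≤ 1 / 2 →
        (∀ y : ℝ, 3 ≤ y → y ≤ c * (Real.log x / Real.log (Real.log x)) →
          (({d : ℤ | d ∈ fields x ∧
            (Module.finrank ℚ K : ℝ) * N * (Real.log (Real.log y) + C) +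
                2 * N * S.card * Real.log 2 <
              |Real.log ‖L (Q d) (1 + (i : ℂ) / 2 + ε + t * Complex.I)‖|}.ncard : ℕ) : ℝ) ≤
            17 * Real.exp (-(y / 4)) * (fields x).card) ∧
        ∃ E : Finset ℤ, E ⊆ fields x ∧
          (E.card : ℝ) ≤ Real.exp (-(c * (Real.log x / Real.log (Real.log x)))) * (fields x).card ∧
          ∀ r : ℝ, 0 ≤ r → ∑ d ∈ fields x \ E,
            Real.exp (r * |Real.log ‖L (Q d) (1 + (i : ℂ) / 2 + ε + t * Complex.I)‖|) ≤
              Real.exp (2 * r * N * S.card * Real.log 2) *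
                D (r * ((Module.finrank ℚ K : ℝ) * N)) * (fields x).card := by
  open Pool.Agent.H439.LL Pool.Agent.H439.QD in
  classical
  obtain ⟨C, -, hC⟩ := exists_CE
  refine ⟨C, fun u => 4 * DD C u, fun A κ hA hκ hκ8 => ?_⟩
  obtain ⟨c, x₀, hc, h⟩ := dev_all_q hC hA hκ hκ8
  refine ⟨c, x₀, hc, fun K _ _ N i P Q S hP hQ hPQ x hx t ε ht hε0 hε1 => ?_⟩
  have hε : 0 < ε := lt_of_lt_of_le (Real.exp_pos _) hε0
  have hW : HW P N (i : ℝ) := ⟨hP.coeff_zero, hP.natDegree_le, hP.le_norm⟩
  have hWQ : ∀ d, HW (Q d) N (i : ℝ) := fun d =>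
    ⟨(hQ d).coeff_zero, (hQ d).natDegree_le, (hQ d).le_norm⟩
  obtain ⟨h1, E, hES, hE, h2⟩ := h K N i P hW x hx t ht ε hε0 hε1
  have key : ∀ d : ℤ, |Real.log ‖L (Q d) (1 + (i : ℂ) / 2 + ε + t * Complex.I)‖| ≤
      |Real.log ‖LG P (qg d t) (1 + ((i : ℝ) : ℂ) / 2 + (ε : ℂ))‖| +
        2 * N * S.card * Real.log 2 := by
    intro d
    have h3 := log_twist (P := P) (Q := Q d) hW (hWQ d) (g := fun n => quad d n)
      (by
        have := pm_qg d 0
        constructor
        · intro p hp k
          exact qc_pow d hp k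
        · intro p hp
          change ‖qc d p‖ ≤ 1
          rw [qc_prime d hp]
          exact norm_kr d p)
      (S := S) (fun v hv T => hPQ d v hv T) hε t
    have e1 : (1 + ((i : ℝ) : ℂ) / 2 + (ε : ℂ) + t * Complex.I) =
        1 + (i : ℂ) / 2 + ε + t * Complex.I := by push_cast; rfl
    rw [e1] at h3
    have e2 : 2 * ((S.card : ℝ) * (N * Real.log 2)) = 2 * N * S.card * Real.log 2 := by ring
    rw [e2] at h3
    exact h3
  refine ⟨fun y hy3 hyc => ?_, E, hES, ?_, fun r hr => ?_⟩
  · have h3 := h1 y hy3 hyc ((SF x).filter fun d =>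
      (Module.finrank ℚ K : ℝ) * N * (Real.log (Real.log y) + C) <
        |Real.log ‖LG P (qg d t) (1 + ((i : ℝ) : ℂ) / 2 + (ε : ℂ))‖|) (Finset.filter_subset _ _)
      (fun d hd => (Finset.mem_filter.1 hd).2)
    have e : 17 * Real.exp (-(y / 4)) * ((fields x).card : ℝ) =
        17 * (((SF x).card : ℝ) * Real.exp (-(y / 4))) := by
      change 17 * Real.exp (-(y / 4)) * ((SF x).card : ℝ) = _
      ring
    rw [e]
    refine le_trans ?_ h3
    rw [← Set.ncard_coe_finset]
    have hsub : {d : ℤ | d ∈ fields x ∧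
            (Module.finrank ℚ K : ℝ) * N * (Real.log (Real.log y) + C) +
                2 * N * S.card * Real.log 2 <
              |Real.log ‖L (Q d) (1 + (i : ℂ) / 2 + ε + t * Complex.I)‖|} ⊆
        (((SF x).filter fun d => (Module.finrank ℚ K : ℝ) * N * (Real.log (Real.log y) + C) <
          |Real.log ‖LG P (qg d t) (1 + ((i : ℝ) : ℂ) / 2 + (ε : ℂ))‖| : Finset ℤ) : Set ℤ) := by
      intro d hd
      rw [Finset.mem_coe, Finset.mem_filter]
      refine ⟨hd.1, ?_⟩
      have h4 := hd.2
      have h5 := key d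
      linarith
    exact_mod_cast Set.ncard_le_ncard hsub (Finset.finite_toSet _)
  · refine hE.trans (le_of_eq ?_)
    change ((SF x).card : ℝ) * _ = _ * ((SF x).card : ℝ)
    ring
  · have h3 : ∀ d ∈ fields x \ E,
        Real.exp (r * |Real.log ‖L (Q d) (1 + (i : ℂ) / 2 + ε + t * Complex.I)‖|) ≤
        Real.exp (2 * r * N * S.card * Real.log 2) *
          Real.exp (r * |Real.log ‖LG P (qg d t) (1 + ((i : ℝ) : ℂ) / 2 + (ε : ℂ))‖|) := by
      intro d _
      rw [← Real.exp_add]
      apply Real.exp_le_exp.2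
      have h4 := mul_le_mul_of_nonneg_left (key d) hr
      linarith
    refine (Finset.sum_le_sum h3).trans ?_
    rw [← Finset.mul_sum]
    refine le_trans (mul_le_mul_of_nonneg_left (h2 r hr) (Real.exp_pos _).le) (le_of_eq ?_)
    change _ * (4 * DD C _ * ((SF x).card : ℝ)) = _ * (4 * DD C _) * ((SF x).card : ℝ)
    ring

end Pool.Agent.Results.MP_bf61d2_nt.QuadraticTwistsDeviations
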